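import Mathlib

/-!
Weyl differencing in abstract form: sums of unit complex numbers whose first, second or third
difference ratio is `e(b/l)`, `e(b d/l)` or `e(b d d'/l^s)`.
-/

namespace Pool.Agent.H70.Rud

open Finset Complex

/-- `e(x) = exp(2 pi i x)`. -/
noncomputable def e (x : ℝ) : ℂ := Complex.exp (2 * Real.pi * Complex.I * x)

theorem e_norm (x : ℝ) : ‖e x‖ = 1 := by
  unfold e
  rw [Complex.norm_exp]
  simp

theorem e_add (x y : ℝ) : e (x + y) = e x * e y := by
  unfold e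
  rw [← Complex.exp_add]
  congr 1
  push_cast
  ring

theorem e_int (n : ℤ) : e n = 1 := by
  unfold e
  rw [Complex.exp_eq_one_iff]
  exact ⟨n, by push_cast; ring⟩

theorem e_add_int (x : ℝ) (n : ℤ) : e (x + n) = e x := by rw [e_add, e_int, mul_one]

/-- `|1 - e(x)| = 2 |sin (pi x)|`. -/
theorem norm_one_sub_e (x : ℝ) : ‖1 - e x‖ = 2 * |Real.sin (Real.pi * x)| := by
  have h1 : ‖1 - e x‖ ^ 2 = (2 * |Real.sin (Real.pi * x)|) ^ 2 := by
    rw [← Complex.normSq_eq_norm_sq, mul_pow, sq_abs]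
    have he : e x = Real.cos (2 * Real.pi * x) + Real.sin (2 * Real.pi * x) * Complex.I := by
      unfold e
      rw [show (2 * Real.pi * Complex.I * x : ℂ) = ((2 * Real.pi * x : ℝ) : ℂ) * Complex.I by
        push_cast; ring]
      rw [Complex.exp_mul_I]
      push_cast
      rfl
    rw [he, Complex.normSq_apply]
    have hr : ∀ C S : ℝ, (1 - ((C : ℂ) + (S : ℂ) * Complex.I)).re = 1 - C := by
      intro C S; simp
    have hi : ∀ C S : ℝ, (1 - ((C : ℂ) + (S : ℂ) * Complex.I)).im = -S := by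
      intro C S; simp
    rw [hr, hi]
    have h2 : Real.cos (2 * Real.pi * x) = 1 - 2 * Real.sin (Real.pi * x) ^ 2 := by
      rw [show 2 * Real.pi * x = 2 * (Real.pi * x) by ring, Real.cos_two_mul]
      have := Real.sin_sq_add_cos_sq (Real.pi * x)
      linarith
    have h3 := Real.sin_sq_add_cos_sq (2 * Real.pi * x)
    nlinarith
  have h2 : 0 ≤ 2 * |Real.sin (Real.pi * x)| := by positivity
  exact (pow_left_inj₀ (norm_nonneg _) h2 two_ne_zero).mp h1

/-- A lower bound for `|1 - e(r/q)|`. -/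
theorem norm_one_sub_e_ge {q r : ℕ} (hr : 0 < r) (hrq : r < q) :
    4 / (q * (1 / (r : ℝ) + 1 / ((q : ℝ) - r))) ≤ ‖1 - e ((r : ℝ) / q)‖ := by
  have hq : (0 : ℝ) < q := by exact_mod_cast (by omega : 0 < q)
  have hr' : (0 : ℝ) < r := by exact_mod_cast hr
  have hrq' : (r : ℝ) < q := by exact_mod_cast hrq
  have hqr : (0 : ℝ) < (q : ℝ) - r := by linarith
  rw [norm_one_sub_e]
  have hsum : 1 / (r : ℝ) + 1 / ((q : ℝ) - r) = q / (r * (q - r)) := by
    field_simp
    ring
  rw [hsum]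
  have key : 4 / ((q : ℝ) * (q / (r * (q - r)))) = 4 * (r / q) * (1 - r / q) := by
    field_simp
  rw [key]
  set x : ℝ := r / q with hx
  have hx0 : 0 < x := by positivity
  have hx1 : x < 1 := by rw [hx, div_lt_one hq]; exact hrq'
  have hpi := Real.pi_pos
  have hsinpos : 0 < Real.sin (Real.pi * x) := by
    apply Real.sin_pos_of_pos_of_lt_pi
    · positivity
    · nlinarith
  rw [abs_of_pos hsinpos]
  rcases le_total x (1 / 2) with h | h
  · have h1 := Real.mul_le_sin (x := Real.pi * x) (by positivity) (by nlinarith)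
    have h2 : 2 / Real.pi * (Real.pi * x) = 2 * x := by field_simp
    rw [h2] at h1
    nlinarith
  · have h1 := Real.mul_le_sin (x := Real.pi * (1 - x)) (by nlinarith) (by nlinarith)
    have h2 : 2 / Real.pi * (Real.pi * (1 - x)) = 2 * (1 - x) := by field_simp
    have h3 : Real.sin (Real.pi * (1 - x)) = Real.sin (Real.pi * x) := by
      rw [show Real.pi * (1 - x) = Real.pi - Real.pi * x by ring, Real.sin_pi_sub]
    rw [h2, h3] at h1
    nlinarith

/-- The bound for a geometric sum with ratio `e(r/q)`, with the trivial bound `T` for `r = 0`. -/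
noncomputable def F (T : ℝ) (q r : ℕ) : ℝ :=
  if r = 0 then T else (q : ℝ) / 2 * (1 / (r : ℝ) + 1 / ((q : ℝ) - r))

theorem geom_ratio {u : ℕ → ℂ} {w : ℂ} (h : ∀ t, u (t + 1) = w * u t) (n : ℕ) :
    (1 - w) * ∑ t ∈ range n, u t = u 0 - u n := by
  induction n with
  | zero => simp
  | succ n ih => rw [sum_range_succ, mul_add, ih, h n]; ring

theorem e_mod {q : ℕ} (hq : 0 < q) (m : ℤ) : e ((m : ℝ) / q) = e (((m % q).toNat : ℝ) / q) := by
  have hq' : (q : ℝ) ≠ 0 := by exact_mod_cast hq.ne'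
  have hnn : 0 ≤ m % (q : ℤ) := Int.emod_nonneg _ (by exact_mod_cast hq.ne')
  have h1 : ((m % (q : ℤ)).toNat : ℝ) = ((m % (q : ℤ) : ℤ) : ℝ) := by
    have : ((m % (q : ℤ)).toNat : ℤ) = m % (q : ℤ) := Int.toNat_of_nonneg hnn
    exact_mod_cast this
  rw [h1]
  have h2 : (m : ℝ) = ((m % (q : ℤ) : ℤ) : ℝ) + (q : ℝ) * ((m / (q : ℤ) : ℤ) : ℝ) := by
    have := Int.emod_add_mul_ediv m q
    exact_mod_cast this.symm
  have h3 : (m : ℝ) / q = ((m % (q : ℤ) : ℤ) : ℝ) / q + ((m / (q : ℤ) : ℤ) : ℝ) := by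
    rw [h2]
    field_simp
  rw [h3, e_add_int]

theorem geom_bound {u : ℕ → ℂ} (hu : ∀ t, ‖u t‖ = 1) {q : ℕ} (hq : 0 < q) (m : ℤ)
    (h : ∀ t, u (t + 1) = e ((m : ℝ) / q) * u t) (n : ℕ) {T : ℝ} (hT : (n : ℝ) ≤ T) :
    ‖∑ t ∈ range n, u t‖ ≤ F T q (m % q).toNat := by
  unfold F
  split_ifs with h0
  · calc ‖∑ t ∈ range n, u t‖ ≤ ∑ t ∈ range n, ‖u t‖ := norm_sum_le _ _
      _ = n := by simp [hu]
      _ ≤ T := hT
  · set r := (m % (q : ℤ)).toNat with hr
    have hrpos : 0 < r := Nat.pos_of_ne_zero h0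
    have hlt : m % (q : ℤ) < q := Int.emod_lt_of_pos _ (by exact_mod_cast hq)
    have hrq : r < q := by omega
    have hge := norm_one_sub_e_ge hrpos hrq
    rw [← e_mod hq m] at hge
    have hq' : (0 : ℝ) < q := by exact_mod_cast hq
    have hr' : (0 : ℝ) < r := by exact_mod_cast hrpos
    have hqr : (0 : ℝ) < (q : ℝ) - r := by
      have : (r : ℝ) < q := by exact_mod_cast hrq
      linarith
    have hs : 0 < 1 / (r : ℝ) + 1 / ((q : ℝ) - r) := by positivity
    have hg := geom_ratio h n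
    have hn : ‖1 - e ((m : ℝ) / q)‖ * ‖∑ t ∈ range n, u t‖ ≤ 2 := by
      rw [← norm_mul, hg]
      calc ‖u 0 - u n‖ ≤ ‖u 0‖ + ‖u n‖ := norm_sub_le _ _
        _ = 2 := by rw [hu, hu]; norm_num
    have hnn := norm_nonneg (∑ t ∈ range n, u t)
    have h4 : 4 / (q * (1 / (r : ℝ) + 1 / ((q : ℝ) - r))) * ‖∑ t ∈ range n, u t‖ ≤ 2 :=
      le_trans (mul_le_mul_of_nonneg_right hge hnn) hn
    have hpos : 0 < (q : ℝ) * (1 / (r : ℝ) + 1 / ((q : ℝ) - r)) := by positivity
    rw [div_mul_eq_mul_div, div_le_iff₀ hpos] at h4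
    linarith

/-- The van der Corput identity. -/
theorem vdc_id (u : ℕ → ℂ) (T : ℕ) :
    ‖∑ t ∈ range T, u t‖ ^ 2 + ∑ t ∈ range T, ‖u t‖ ^ 2 =
      2 * (∑ d ∈ range T, ∑ t ∈ range (T - d), u (t + d) * (starRingEnd ℂ) (u t)).re := by
  induction T with
  | zero => simp
  | succ T ih =>
    have hA : ∑ d ∈ range (T + 1), ∑ t ∈ range (T + 1 - d), u (t + d) * (starRingEnd ℂ) (u t) =
        (∑ d ∈ range T, ∑ t ∈ range (T - d), u (t + d) * (starRingEnd ℂ) (u t)) +
          u T * (starRingEnd ℂ) (∑ t ∈ range (T + 1), u t) := by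
      have h1 : ∀ d ∈ range (T + 1), ∑ t ∈ range (T + 1 - d), u (t + d) * (starRingEnd ℂ) (u t) =
          (∑ t ∈ range (T - d), u (t + d) * (starRingEnd ℂ) (u t)) +
            u T * (starRingEnd ℂ) (u (T - d)) := by
        intro d hd
        have hd' : d ≤ T := by simpa [Nat.lt_succ_iff] using hd
        rw [show T + 1 - d = (T - d) + 1 by omega, sum_range_succ,
          show T - d + d = T by omega]
      rw [sum_congr rfl h1, sum_add_distrib, sum_range_succ]
      simp only [Nat.sub_self, range_zero, sum_empty, add_zero]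
      congr 1
      rw [← mul_sum, map_sum]
      congr 1
      rw [← sum_range_reflect (fun t => (starRingEnd ℂ) (u t)) (T + 1)]
      apply sum_congr rfl
      intro d _
      congr 2
    rw [hA, Complex.add_re, mul_add, ← ih, sum_range_succ (fun t => ‖u t‖ ^ 2), sum_range_succ u]
    set S := ∑ t ∈ range T, u t
    rw [map_add, mul_add, Complex.add_re]
    have h2 : (u T * (starRingEnd ℂ) (u T)).re = ‖u T‖ ^ 2 := by
      rw [Complex.mul_conj, Complex.ofReal_re, Complex.normSq_eq_norm_sq]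
    have h3 : ‖S + u T‖ ^ 2 = ‖S‖ ^ 2 + 2 * (u T * (starRingEnd ℂ) S).re + ‖u T‖ ^ 2 := by
      rw [← Complex.normSq_eq_norm_sq, ← Complex.normSq_eq_norm_sq, ← Complex.normSq_eq_norm_sq,
        Complex.normSq_add]
      have : (S * (starRingEnd ℂ) (u T)).re = (u T * (starRingEnd ℂ) S).re := by
        simp [Complex.mul_re]
        ring
      rw [this]
      ring
    rw [h2, h3]
    ring

theorem vdc (u : ℕ → ℂ) (T : ℕ) :
    ‖∑ t ∈ range T, u t‖ ^ 2 ≤
      2 * ∑ d ∈ range T, ‖∑ t ∈ range (T - d), u (t + d) * (starRingEnd ℂ) (u t)‖ := by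
  have h := vdc_id u T
  have h1 : 0 ≤ ∑ t ∈ range T, ‖u t‖ ^ 2 := sum_nonneg (fun t _ => by positivity)
  have h2 := Complex.re_le_norm
    (∑ d ∈ range T, ∑ t ∈ range (T - d), u (t + d) * (starRingEnd ℂ) (u t))
  have h3 : ‖∑ d ∈ range T, ∑ t ∈ range (T - d), u (t + d) * (starRingEnd ℂ) (u t)‖ ≤
      ∑ d ∈ range T, ‖∑ t ∈ range (T - d), u (t + d) * (starRingEnd ℂ) (u t)‖ := norm_sum_le _ _
  linarith

theorem F_nonneg {T : ℝ} (hT : 0 ≤ T) {q r : ℕ} (hr : r < q) : 0 ≤ F T q r := by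
  unfold F
  split_ifs with h
  · exact hT
  · have hr' : (0 : ℝ) < r := by exact_mod_cast Nat.pos_of_ne_zero h
    have hq' : (r : ℝ) < q := by exact_mod_cast hr
    have : (0 : ℝ) < (q : ℝ) - r := by linarith
    positivity

theorem sum_F {T : ℝ} {q : ℕ} (hq : 0 < q) :
    ∑ r ∈ range q, F T q r ≤ T + q * (1 + Real.log q) := by
  obtain ⟨k, rfl⟩ : ∃ k, q = k + 1 := ⟨q - 1, by omega⟩
  rw [sum_range_succ']
  have h0 : F T (k + 1) 0 = T := by simp [F]
  rw [h0]
  have h1 : ∀ r ∈ range k, F T (k + 1) (r + 1) =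
      ((k + 1 : ℕ) : ℝ) / 2 * (1 / ((r : ℝ) + 1)) + ((k + 1 : ℕ) : ℝ) / 2 *
        (1 / (((k - 1 - r : ℕ) : ℝ) + 1)) := by
    intro r hr
    have hr' : r < k := mem_range.mp hr
    unfold F
    rw [if_neg (by omega), mul_add]
    congr 2
    · push_cast; ring
    · congr 1
      have : ((k - 1 - r : ℕ) : ℝ) = (k : ℝ) - 1 - r := by
        rw [Nat.cast_sub (by omega), Nat.cast_sub (by omega)]
        norm_num
      rw [this]
      push_cast
      ring
  rw [sum_congr rfl h1, sum_add_distrib, ← mul_sum, ← mul_sum]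
  have h2 : ∑ r ∈ range k, 1 / (((k - 1 - r : ℕ) : ℝ) + 1) = ∑ r ∈ range k, 1 / ((r : ℝ) + 1) :=
    sum_range_reflect (fun r => 1 / ((r : ℝ) + 1)) k
  rw [h2]
  have h3 : ∑ r ∈ range k, 1 / ((r : ℝ) + 1) = (harmonic k : ℝ) := by
    unfold harmonic
    push_cast
    apply sum_congr rfl
    intro r _
    rw [one_div]
  rw [h3]
  have h4 : (harmonic k : ℝ) ≤ 1 + Real.log ((k + 1 : ℕ) : ℝ) := by
    rcases Nat.eq_zero_or_pos k with rfl | hk
    · simp [harmonic]
    · refine le_trans (harmonic_le_one_add_log k) ?_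
      have : Real.log (k : ℝ) ≤ Real.log ((k + 1 : ℕ) : ℝ) := by
        apply Real.log_le_log (by exact_mod_cast hk)
        push_cast
        linarith
      linarith
  have h5 : (0 : ℝ) ≤ ((k + 1 : ℕ) : ℝ) := by positivity
  nlinarith [mul_le_mul_of_nonneg_left h4 h5]

/-- Sums of periodic functions. -/
theorem per_sum {f : ℕ → ℝ} (hf : ∀ d, 0 ≤ f d) {q : ℕ} (hq : 0 < q) (hp : ∀ d, f (d + q) = f d)
    (T : ℕ) : ∑ d ∈ range T, f d ≤ ((T : ℝ) / q + 1) * ∑ d ∈ range q, f d := by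
  have hk : ∀ k, ∑ d ∈ range (k * q), f d = k * ∑ d ∈ range q, f d := by
    intro k
    induction k with
    | zero => simp
    | succ k ih =>
      have hshift : ∀ k d, f (k * q + d) = f d := by
        intro k d
        induction k with
        | zero => simp
        | succ k ih =>
          rw [show (k + 1) * q + d = (k * q + d) + q by ring, hp, ih]
      rw [show (k + 1) * q = k * q + q by ring, sum_range_add, ih]
      simp only [hshift]
      push_cast
      ring
  have h1 : T ≤ (T / q + 1) * q := by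
    have := Nat.div_add_mod T q
    have := Nat.mod_lt T hq
    nlinarith
  have h2 : ∑ d ∈ range T, f d ≤ ∑ d ∈ range ((T / q + 1) * q), f d :=
    sum_le_sum_of_subset_of_nonneg (range_mono h1) (fun i _ _ => hf i)
  rw [hk] at h2
  refine le_trans h2 ?_
  apply mul_le_mul_of_nonneg_right _ (sum_nonneg (fun i _ => hf i))
  push_cast
  have : ((T / q : ℕ) : ℝ) ≤ (T : ℝ) / q := Nat.cast_div_le
  linarith

theorem unit_sum {T : ℝ} (hT : 0 ≤ T) {q : ℕ} (hq : 0 < q) {c : ℤ} (hc : IsCoprime c (q : ℤ))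
    (n : ℕ) : ∑ d ∈ range n, F T q (c * (d : ℤ) % q).toNat ≤
      ((n : ℝ) / q + 1) * (T + q * (1 + Real.log q)) := by
  have hq' : (0 : ℤ) < q := by exact_mod_cast hq
  have hlt : ∀ m : ℤ, (m % (q : ℤ)).toNat < q := by
    intro m
    have h1 := Int.emod_nonneg m hq'.ne'
    have h2 := Int.emod_lt_of_pos m hq'
    omega
  have h := per_sum (f := fun d => F T q (c * (d : ℤ) % q).toNat)
    (fun d => F_nonneg hT (hlt _)) hq (fun d => by
      congr 2
      push_cast
      rw [mul_add]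
      exact Int.add_mul_emod_self_right _ _ _) n
  refine le_trans h ?_
  apply mul_le_mul_of_nonneg_left _ (by positivity)
  have himg : (range q).image (fun d : ℕ => (c * (d : ℤ) % q).toNat) = range q := by
    apply eq_of_subset_of_card_le
    · intro r hr
      obtain ⟨d, _, rfl⟩ := mem_image.mp hr
      exact mem_range.mpr (hlt _)
    · rw [card_image_of_injOn]
      intro d hd d' hd' hdd
      have h1 : c * (d : ℤ) % q = c * (d' : ℤ) % q := by
        have a1 := Int.emod_nonneg (c * (d : ℤ)) hq'.ne'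
        have a2 := Int.emod_nonneg (c * (d' : ℤ)) hq'.ne'
        simp only at hdd
        omega
      have h2 : (q : ℤ) ∣ c * (d : ℤ) - c * (d' : ℤ) := Int.ModEq.dvd (Int.ModEq.symm h1)
      rw [← mul_sub] at h2
      have h3 : (q : ℤ) ∣ (d : ℤ) - d' := hc.symm.dvd_of_dvd_mul_left h2
      have hd1 : d < q := by simpa using hd
      have hd2 : d' < q := by simpa using hd'
      obtain ⟨k, hk⟩ := h3
      have hk0 : k = 0 := by
        by_contra hk0
        rcases lt_or_gt_of_ne hk0 with hneg | hpos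
        · have : (q : ℤ) * k ≤ -q := by nlinarith
          omega
        · have : (q : ℤ) ≤ q * k := by nlinarith
          omega
      rw [hk0] at hk
      omega
  have hinj : Set.InjOn (fun d : ℕ => (c * (d : ℤ) % q).toNat) (range q : Set ℕ) := by
    apply injOn_of_card_image_eq
    rw [himg]
  calc ∑ d ∈ range q, F T q (c * (d : ℤ) % q).toNat
      = ∑ r ∈ (range q).image (fun d : ℕ => (c * (d : ℤ) % q).toNat), F T q r :=
        (sum_image hinj).symm
    _ = ∑ r ∈ range q, F T q r := by rw [himg]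
    _ ≤ T + q * (1 + Real.log q) := sum_F hq

theorem W1 {z : ℕ → ℂ} (hz : ∀ t, ‖z t‖ = 1) {l : ℕ} (hl : l.Prime) {b : ℤ}
    (hb : ¬ (l : ℤ) ∣ b) (h : ∀ t, z (t + 1) = e ((b : ℝ) / l) * z t) (T : ℕ) :
    ‖∑ t ∈ range T, z t‖ ≤ l := by
  have hb1 := geom_bound hz hl.pos b h T (T := T) le_rfl
  refine le_trans hb1 ?_
  have hl' : (0 : ℤ) < l := by exact_mod_cast hl.pos
  have hr0 : (b % (l : ℤ)).toNat ≠ 0 := by
    intro h0
    apply hb
    apply Int.dvd_of_emod_eq_zero
    have := Int.emod_nonneg b hl'.ne'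
    omega
  unfold F
  rw [if_neg hr0]
  have hrl : (b % (l : ℤ)).toNat < l := by
    have := Int.emod_lt_of_pos b hl'
    omega
  set r := (b % (l : ℤ)).toNat
  have h1 : (1 : ℝ) ≤ r := by exact_mod_cast Nat.one_le_iff_ne_zero.mpr hr0
  have h2 : (1 : ℝ) ≤ (l : ℝ) - r := by
    have : (r : ℝ) + 1 ≤ l := by exact_mod_cast hrl
    linarith
  have h3 : 1 / (r : ℝ) ≤ 1 := by rw [div_le_one (by linarith)]; exact h1
  have h4 : 1 / ((l : ℝ) - r) ≤ 1 := by rw [div_le_one (by linarith)]; exact h2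
  have h5 : (0 : ℝ) ≤ l := by positivity
  nlinarith

theorem W2 {z : ℕ → ℂ} (hz : ∀ t, ‖z t‖ = 1) {l : ℕ} (hl : l.Prime) {b : ℤ}
    (hb : ¬ (l : ℤ) ∣ b)
    (h : ∀ d t : ℕ, z (t + 1 + d) * (starRingEnd ℂ) (z (t + 1)) =
      e ((b * d : ℝ) / l) * (z (t + d) * (starRingEnd ℂ) (z t))) (T : ℕ) :
    ‖∑ t ∈ range T, z t‖ ^ 2 ≤ 2 * ((T : ℝ) / l + 1) * (T + l * (1 + Real.log l)) := by
  refine le_trans (vdc z T) ?_
  rw [mul_assoc]
  apply mul_le_mul_of_nonneg_left _ (by norm_num)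
  have hcop : IsCoprime b (l : ℤ) :=
    ((Nat.prime_iff_prime_int.mp hl).coprime_iff_not_dvd.mpr hb).symm
  refine le_trans ?_ (unit_sum (T := T) (by positivity) hl.pos hcop T)
  apply sum_le_sum
  intro d _
  have hnorm : ∀ t, ‖z (t + d) * (starRingEnd ℂ) (z t)‖ = 1 := by
    intro t
    rw [norm_mul, RCLike.norm_conj, hz, hz, mul_one]
  apply geom_bound hnorm hl.pos (b * d)
  · intro t
    have := h d t
    push_cast at this ⊢
    exact this
  · have : T - d ≤ T := Nat.sub_le _ _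
    exact_mod_cast this

theorem W3 {z : ℕ → ℂ} (hz : ∀ t, ‖z t‖ = 1) {l : ℕ} (hl : l.Prime) {b : ℤ}
    (hb : ¬ (l : ℤ) ∣ b) {s : ℕ} (hs : 1 ≤ s)
    (h : ∀ d d' t : ℕ, z (t + 1 + d + d') * (starRingEnd ℂ) (z (t + 1 + d)) *
        (starRingEnd ℂ) (z (t + 1 + d')) * z (t + 1) =
      e ((b * d * d' : ℝ) / l ^ s) * (z (t + d + d') * (starRingEnd ℂ) (z (t + d)) *
        (starRingEnd ℂ) (z (t + d')) * z t)) (T : ℕ) :
    ‖∑ t ∈ range T, z t‖ ^ 4 ≤ 8 * T * (((T : ℝ) / l + 1) * T ^ 2 +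
      T * ((T : ℝ) / (l : ℝ) ^ s + 1) * (T + (l : ℝ) ^ s * (1 + s * Real.log l))) := by
  have hlp : 0 < l ^ s := Nat.pow_pos hl.pos
  have hprime : Prime (l : ℤ) := Nat.prime_iff_prime_int.mp hl
  set g : ℕ → ℝ := fun d => ‖∑ t ∈ range (T - d), z (t + d) * (starRingEnd ℂ) (z t)‖ with hg
  have h1 : ‖∑ t ∈ range T, z t‖ ^ 2 ≤ 2 * ∑ d ∈ range T, g d := vdc z T
  have hg0 : ∀ d, 0 ≤ g d := fun d => norm_nonneg _
  have h2 : ‖∑ t ∈ range T, z t‖ ^ 4 ≤ 4 * (T * ∑ d ∈ range T, g d ^ 2) := by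
    have e1 : ‖∑ t ∈ range T, z t‖ ^ 4 = (‖∑ t ∈ range T, z t‖ ^ 2) ^ 2 := by ring
    rw [e1]
    have e2 : (‖∑ t ∈ range T, z t‖ ^ 2) ^ 2 ≤ (2 * ∑ d ∈ range T, g d) ^ 2 :=
      pow_le_pow_left₀ (by positivity) h1 2
    have e3 := sq_sum_le_card_mul_sum_sq (s := range T) (f := g)
    rw [card_range] at e3
    nlinarith
  -- the bound of g d ^ 2
  set A : ℝ := ((T : ℝ) / (l : ℝ) ^ s + 1) * (T + (l : ℝ) ^ s * (1 + s * Real.log l)) with hA
  have hA0 : 0 ≤ A := by
    have : 0 ≤ Real.log l := Real.log_nonneg (by exact_mod_cast hl.one_lt.le)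
    positivity
  have hgd : ∀ d, g d ^ 2 ≤ 2 * ((if (l : ℕ) ∣ d then (1 : ℝ) else 0) * T ^ 2 + A) := by
    intro d
    have hunit : ∀ t, ‖z (t + d) * (starRingEnd ℂ) (z t)‖ = 1 := by
      intro t
      rw [norm_mul, RCLike.norm_conj, hz, hz, mul_one]
    have hv := vdc (fun t => z (t + d) * (starRingEnd ℂ) (z t)) (T - d)
    refine le_trans hv ?_
    apply mul_le_mul_of_nonneg_left _ (by norm_num)
    have hn : ∀ d' t, ‖z (t + d' + d) * (starRingEnd ℂ) (z (t + d')) *
        (starRingEnd ℂ) (z (t + d) * (starRingEnd ℂ) (z t))‖ = 1 := by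
      intro d' t
      rw [norm_mul, RCLike.norm_conj, hunit, hunit, mul_one]
    by_cases hdl : (l : ℕ) ∣ d
    · rw [if_pos hdl, one_mul]
      have : ∀ d' ∈ range (T - d), ‖∑ t ∈ range (T - d - d'), z (t + d' + d) *
          (starRingEnd ℂ) (z (t + d')) * (starRingEnd ℂ) (z (t + d) * (starRingEnd ℂ) (z t))‖ ≤
            T := by
        intro d' _
        refine le_trans (norm_sum_le _ _) ?_
        rw [sum_congr rfl (fun t _ => hn d' t)]
        simp only [sum_const, card_range, nsmul_eq_mul, mul_one]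
        have : T - d - d' ≤ T := by omega
        exact_mod_cast this
      refine le_trans (sum_le_sum this) ?_
      simp only [sum_const, card_range, nsmul_eq_mul]
      have h3 : ((T - d : ℕ) : ℝ) ≤ T := by
        have : T - d ≤ T := Nat.sub_le _ _
        exact_mod_cast this
      have h4 : (0 : ℝ) ≤ T := by positivity
      nlinarith
    · rw [if_neg hdl, zero_mul, zero_add]
      have hcop : IsCoprime (b * (d : ℤ)) ((l ^ s : ℕ) : ℤ) := by
        push_cast
        apply IsCoprime.pow_right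
        apply IsCoprime.mul_left
        · exact (hprime.coprime_iff_not_dvd.mpr hb).symm
        · apply (hprime.coprime_iff_not_dvd.mpr _).symm
          intro h0
          exact hdl (by exact_mod_cast h0)
      have hu := unit_sum (T := T) (by positivity) hlp hcop T
      have hAe : ((T : ℝ) / ((l ^ s : ℕ) : ℝ) + 1) *
          (T + ((l ^ s : ℕ) : ℝ) * (1 + Real.log ((l ^ s : ℕ) : ℝ))) = A := by
        rw [hA]
        push_cast
        rw [Real.log_pow]
      rw [hAe] at hu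
      refine le_trans ?_ hu
      have hlt : ∀ m : ℤ, (m % ((l ^ s : ℕ) : ℤ)).toNat < l ^ s := by
        intro m
        have hq' : (0 : ℤ) < ((l ^ s : ℕ) : ℤ) := by exact_mod_cast hlp
        have h1 := Int.emod_nonneg m hq'.ne'
        have h2 := Int.emod_lt_of_pos m hq'
        omega
      refine le_trans ?_ (sum_le_sum_of_subset_of_nonneg (range_mono (Nat.sub_le T d))
        (fun i _ _ => F_nonneg (by positivity) (hlt _)))
      apply sum_le_sum
      intro d' _
      apply geom_bound (hn d') hlp (b * d * d')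
      · intro t
        have := h d d' t
        have e1 : z (t + 1 + d' + d) * (starRingEnd ℂ) (z (t + 1 + d')) *
            (starRingEnd ℂ) (z (t + 1 + d) * (starRingEnd ℂ) (z (t + 1))) =
            z (t + 1 + d + d') * (starRingEnd ℂ) (z (t + 1 + d)) *
              (starRingEnd ℂ) (z (t + 1 + d')) * z (t + 1) := by
          rw [map_mul, Complex.conj_conj, show t + 1 + d' + d = t + 1 + d + d' by ring]
          ring
        have e2 : z (t + d' + d) * (starRingEnd ℂ) (z (t + d')) *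
            (starRingEnd ℂ) (z (t + d) * (starRingEnd ℂ) (z t)) =
            z (t + d + d') * (starRingEnd ℂ) (z (t + d)) *
              (starRingEnd ℂ) (z (t + d')) * z t := by
          rw [map_mul, Complex.conj_conj, show t + d' + d = t + d + d' by ring]
          ring
        rw [e1, e2, this]
        push_cast
        rfl
      · have : T - d - d' ≤ T := by omega
        exact_mod_cast this
  have hcount : ∑ d ∈ range T, (if (l : ℕ) ∣ d then (1 : ℝ) else 0) ≤ (T : ℝ) / l + 1 := by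
    have hp := per_sum (f := fun d => if (l : ℕ) ∣ d then (1 : ℝ) else 0)
      (fun d => by split_ifs <;> norm_num) hl.pos
      (fun d => by simp only [Nat.dvd_add_self_right]) T
    have hone : ∑ d ∈ range l, (if (l : ℕ) ∣ d then (1 : ℝ) else 0) = 1 := by
      rw [sum_eq_single 0]
      · simp
      · intro d hd hd0
        rw [if_neg]
        intro hdvd
        have := Nat.le_of_dvd (Nat.pos_of_ne_zero hd0) hdvd
        have := mem_range.mp hd
        omega
      · intro h0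
        exact absurd (mem_range.mpr hl.pos) h0
    rw [hone, mul_one] at hp
    exact hp
  have hsum : ∑ d ∈ range T, g d ^ 2 ≤ 2 * (((T : ℝ) / l + 1) * T ^ 2 + T * A) := by
    calc ∑ d ∈ range T, g d ^ 2
        ≤ ∑ d ∈ range T, 2 * ((if (l : ℕ) ∣ d then (1 : ℝ) else 0) * T ^ 2 + A) :=
          sum_le_sum (fun d _ => hgd d)
      _ = 2 * ((∑ d ∈ range T, (if (l : ℕ) ∣ d then (1 : ℝ) else 0)) * T ^ 2 + T * A) := by
          rw [← mul_sum, sum_add_distrib, ← sum_mul]
          simp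
      _ ≤ _ := by
          apply mul_le_mul_of_nonneg_left _ (by norm_num)
          have : (∑ d ∈ range T, (if (l : ℕ) ∣ d then (1 : ℝ) else 0)) * (T : ℝ) ^ 2 ≤
              ((T : ℝ) / l + 1) * T ^ 2 := mul_le_mul_of_nonneg_right hcount (by positivity)
          linarith
  have hT0 : (0 : ℝ) ≤ T := by positivity
  have := mul_le_mul_of_nonneg_left hsum hT0
  calc ‖∑ t ∈ range T, z t‖ ^ 4 ≤ 4 * (T * ∑ d ∈ range T, g d ^ 2) := h2
    _ ≤ 4 * (T * (2 * (((T : ℝ) / l + 1) * T ^ 2 + T * A))) := by linarith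
    _ = _ := by rw [hA]; ring

end Pool.Agent.H70.Rud
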